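import Mathlib
import Pool.Agent.Helper844.RF.Assoc2
import Pool.Agent.Helper844.RF.AssocEx

/-!
# Locally residually finite varieties over a finite field: necessary conditions

Let `F` be a finite field and let a variety `V` of associative algebras be locally residually
finite. Then finitely generated algebras of `V` have finite annihilators. For identities this
means: if `t 0, t 1, ...` are polynomials without constant term in `n` variables, then for some
`k < l` the difference `t k - t l` lies in the ideal generated by the identities of `V` and all
products `x_i (t j)`, `(t j) x_i`. In particular, for some `k < l`,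

  `a y^k b - a y^l b = ` (an element of the ideal generated by all `x a y^j b`, `a y^j b x`,
  `x = a, y, b`)

is an identity of `V`, and `V` does not contain the variety defined by `x [y, z] t = 0`.

Proof: a finitely generated algebra `A` has countably many ideals of finite index, while an
infinite annihilator has uncountably many hyperplanes `K`; all of them are ideals, and in the
residually finite algebra `A / K` some ideal of finite index meets the annihilator exactly in `K`.
-/

set_option autoImplicit false

namespace Pool.Agent.Results.MP_5aea19_al.FiniteAnnihilators

open Pool.Agent.Helper844.RF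

universe u

/-- Necessary conditions for local residual finiteness of a variety over a finite field. -/
theorem result (F : Type u) [Field F] [Finite F] (I : Set (FreeAlgebra F ℕ))
    (h0 : ∀ f ∈ I, constTerm f = 0) (hI : LocallyResiduallyFinite I) :
    -- finitely generated algebras in the variety have finite annihilators
    (∀ (A : Type u) [NonUnitalRing A] [Module F A] [IsScalarTower F A A] [SMulCommClass F A A],
      InVariety I A → FinGen F A → Finite (annihilator F A)) ∧
    -- the same in the form of a condition on the identities
    (∀ (n : ℕ) (t : ℕ → FreeAlgebra F (Fin n)), (∀ k, constTerm (t k) = 0) →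
      ∃ k l, k < l ∧ t k - t l ∈ TwoSidedIdeal.span (values I n ∪ products t)) ∧
    -- identities of Anan'in type
    (∃ k l, k < l ∧
      FreeAlgebra.ι F 0 * FreeAlgebra.ι F 1 ^ k * FreeAlgebra.ι F 2 -
        FreeAlgebra.ι F 0 * FreeAlgebra.ι F 1 ^ l * FreeAlgebra.ι F 2 ∈
      TwoSidedIdeal.span (values I 3 ∪ products fun j : ℕ =>
        FreeAlgebra.ι F (0 : Fin 3) * FreeAlgebra.ι F 1 ^ j * FreeAlgebra.ι F 2)) ∧
    -- the variety does not contain all algebras with `x[y,z]t = 0`
    (∃ (A : Type u) (_ : NonUnitalRing A) (_ : Module F A) (_ : IsScalarTower F A A)
      (_ : SMulCommClass F A A), (∀ x y z t : A, x * (y * z - z * y) * t = 0) ∧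
      ¬ InVariety I A) := by
  refine ⟨?_, ?_, ?_, ?_⟩
  · intro A _ _ _ _ hA hfg
    exact annihilator_finite I hI A hA hfg
  · intro n t ht
    exact sequence_form I h0 hI n t ht
  · exact ananin_form I h0 hI
  · exact not_contains F I hI

end Pool.Agent.Results.MP_5aea19_al.FiniteAnnihilators
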